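import Pool.Agent.H287Z.NC.Defs
import Pool.Agent.H287Z.NC.Reach
import Pool.Agent.H287Z.NC.Sim

set_option autoImplicit false

namespace Pool.Agent.Results.MP_ef6eae_lc.AEquivPNC

open Pool.Agent.NPC Pool.Agent.H287Z.NC

/-- `DAGREACH⁻¹(P) ⊆ NC` holds if and only if `P ⊆ NC`. -/
theorem result : (∀ L : Set (List Bool), InP (DagReach L) → InNC L) ↔
    ∀ A : Set (List Bool), InP A → InNC A :=
  ⟨fun h A hA => inNC_of_sq (L := Sq A)
    (fun w => ⟨fun hw v e => (List.append_inj e (by
      have := congrArg List.length e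
      simp only [List.length_append] at this
      omega)).1 ▸ hw, fun hw => hw w rfl⟩) (h _ (dagReach_sq hA)),
    fun h L hL => h L (inP_of_dagReach hL)⟩

end Pool.Agent.Results.MP_ef6eae_lc.AEquivPNC
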